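import Mathlib
import Pool.Agent.Run7.h131.AD.All
import Pool.Agent.R340.LL.Eis
import Pool.Agent.TH252.P2.Glob

/-!
# Omega-integrality and algebraic addition theorems

Let `w_1, …, w_s` be power series over `ℚ` which satisfy an algebraic addition theorem that is regular
at the origin (exponentials, elliptic and abelian functions, elliptic integrals of the second kind, …),
and let `f(ρ(x))` be a regular rational function of `x, w_1(x), …, w_s(x)`, with `ρ` algebraic.  If `f`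
is `ω`-integral for a superlinear `ω`, then `f` has bounded denominators.
-/

set_option autoImplicit false

namespace Pool.Agent.Results.MP_b91de3_nt.AdditionTheorem

/-- `x` is integral at `p`. -/
def PInt (p : ℕ) (x : ℚ) : Prop := ∃ a b : ℤ, ¬ ((p : ℤ) ∣ b) ∧ x = (a : ℚ) / (b : ℚ)

/-- `f` has bounded denominators: all its coefficients lie in `ℤ[1/N]` for some `N ≥ 1`. -/
def BoundedDenominators (f : PowerSeries ℚ) : Prop :=
  ∃ N : ℕ, 1 ≤ N ∧ ∀ k : ℕ, ∃ (a : ℤ) (m : ℕ), PowerSeries.coeff k f = (a : ℚ) / ((N : ℚ) ^ m)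

/-- `ω` is superlinear: `ω(p)/p → ∞`. -/
def Superlinear (ω : ℕ → ℤ) : Prop :=
  ∀ M : ℝ, ∃ B : ℕ, ∀ p : ℕ, p.Prime → B ≤ p → M ≤ (ω p : ℝ) / (p : ℝ)

/-- `f` is `ω`-integral: `a_0, …, a_{ω(p)}` are integral at `p`, for every prime `p`. -/
def OmegaIntegral (ω : ℕ → ℤ) (f : PowerSeries ℚ) : Prop :=
  ∀ p : ℕ, p.Prime → ∀ k : ℕ, (k : ℤ) ≤ ω p → PInt p (PowerSeries.coeff k f)

/-- `f` is a rational function of `z`. -/
def Rational (f : PowerSeries ℚ) : Prop :=
  ∃ P Q : Polynomial ℚ, Q ≠ 0 ∧ (Q : PowerSeries ℚ) * f = P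

/-- The coefficients `a_p, …, a_{p+T}` of `f` are integral at `p`. -/
def Window (f : PowerSeries ℚ) (T p : ℕ) : Prop :=
  ∀ k : ℕ, p ≤ k → k ≤ p + T → PInt p (PowerSeries.coeff k f)

/-- Series in `x` and `y` are power series in `x` with coefficients in `ℚ[[y]]`.  The series
`g(x + y) = ∑_k g^{(k)}(y) x^k / k!`. -/
noncomputable def shift (g : PowerSeries ℚ) : PowerSeries (PowerSeries ℚ) :=
  PowerSeries.mk fun k =>
    PowerSeries.C ((k.factorial : ℚ)⁻¹) * (⇑(PowerSeries.derivative ℚ))^[k] g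

/-- The series `g(x)`. -/
noncomputable def inX (g : PowerSeries ℚ) : PowerSeries (PowerSeries ℚ) :=
  PowerSeries.mk fun k => PowerSeries.C (PowerSeries.coeff k g)

/-- The series `g(y)`. -/
noncomputable def inY (g : PowerSeries ℚ) : PowerSeries (PowerSeries ℚ) := PowerSeries.C g

/-- `w_1, …, w_s` have an algebraic addition theorem which is regular at the origin: for every `i`
there are polynomials `N`, `M` in `2 s` variables with `M(w(0), w(0)) ≠ 0` and
`M(w(x), w(y)) w_i(x + y) = N(w(x), w(y))`. -/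
def AdditionLaw {s : ℕ} (w : Fin s → PowerSeries ℚ) : Prop :=
  ∀ i, ∃ N M : MvPolynomial (Fin s ⊕ Fin s) ℚ,
    MvPolynomial.eval (Sum.elim (fun j => PowerSeries.constantCoeff (w j))
      (fun j => PowerSeries.constantCoeff (w j))) M ≠ 0 ∧
    MvPolynomial.aeval (Sum.elim (fun j => inX (w j)) (fun j => inY (w j))) M * shift (w i) =
      MvPolynomial.aeval (Sum.elim (fun j => inX (w j)) (fun j => inY (w j))) N

/-- `f = P(z, w_1, …, w_s) / Q(z, w_1, …, w_s)` with `Q(0, w_1(0), …, w_s(0)) ≠ 0`. -/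
def RegularIn {s : ℕ} (w : Fin s → PowerSeries ℚ) (f : PowerSeries ℚ) : Prop :=
  ∃ P Q : MvPolynomial (Fin (s + 1)) ℚ,
    MvPolynomial.eval (Fin.cons 0 fun j => PowerSeries.constantCoeff (w j)) Q ≠ 0 ∧
    MvPolynomial.aeval (Fin.cons PowerSeries.X w : Fin (s + 1) → PowerSeries ℚ) Q * f =
      MvPolynomial.aeval (Fin.cons PowerSeries.X w : Fin (s + 1) → PowerSeries ℚ) P

open Run7.h131.AD in
lemma AdditionLaw.add {s : ℕ} {w : Fin s → PowerSeries ℚ} (h : AdditionLaw w) :
    ∃ N M, AddThm w N M := by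
  choose N M h1 h2 using h
  exact ⟨N, M, ⟨h1, h2⟩⟩

open Run7.h131.AD in
lemma AdditionLaw.of {s : ℕ} {w : Fin s → PowerSeries ℚ} (h : ∃ N M, AddThm w N M) :
    AdditionLaw w := by
  obtain ⟨N, M, h⟩ := h
  exact fun i => ⟨N i, M i, h.unit i, h.add i⟩

open Run7.h131.AD in
lemma RegularIn.mem {s : ℕ} {w : Fin s → PowerSeries ℚ} {f : PowerSeries ℚ} (h : RegularIn w f) :
    f ∈ OQ (Fin.cons (PowerSeries.X : PS) w : Fin (s + 1) → PS) := by
  obtain ⟨P, Q, h1, h2⟩ := h
  refine ⟨P, Q, ?_, h2⟩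
  have e : c0 (Fin.cons (PowerSeries.X : PS) w : Fin (s + 1) → PS) =
      Fin.cons 0 fun j => PowerSeries.constantCoeff (w j) := by
    funext i
    refine Fin.cases ?_ (fun j => ?_) i
    · exact PowerSeries.constantCoeff_X
    · rfl
  rw [e]
  exact h1

/-- **Omega-integrality and algebraic addition theorems.** -/
theorem result :
    -- `ω`-integrality for a superlinear `ω` implies bounded denominators
    (∀ (s : ℕ) (w : Fin s → PowerSeries ℚ), AdditionLaw w → ∀ ρ : PowerSeries ℚ,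
      IsAlgebraic (Polynomial ℚ) ρ → PowerSeries.constantCoeff ρ = 0 → ρ ≠ 0 →
      ∀ f : PowerSeries ℚ, RegularIn w (PowerSeries.subst ρ f) →
        ∀ ω : ℕ → ℤ, Superlinear ω → OmegaIntegral ω f → BoundedDenominators f) ∧
    -- rationality: some finite window at all primes outside a thin set is enough
    (∀ (s : ℕ) (w : Fin s → PowerSeries ℚ), AdditionLaw w → ∀ f : PowerSeries ℚ, RegularIn w f →
      ∃ T : ℕ, (Summable fun p : {p : ℕ // p.Prime ∧ ¬ Window f T p} =>
        Real.log (p : ℕ) / (p : ℕ)) → Rational f) ∧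
    -- systems with an addition theorem can be joined
    (∀ (s t : ℕ) (w : Fin s → PowerSeries ℚ) (v : Fin t → PowerSeries ℚ),
      AdditionLaw w → AdditionLaw v → AdditionLaw (Fin.append w v)) ∧
    -- exponentials
    (∀ (c : ℚ) (E : PowerSeries ℚ), PowerSeries.constantCoeff E ≠ 0 →
      PowerSeries.derivative ℚ E = PowerSeries.C c * E → AdditionLaw ![E]) ∧
    -- `sinh (√b z) / √b` and `cosh (√b z)`
    (∀ (b : ℚ) (u v : PowerSeries ℚ), PowerSeries.constantCoeff u = 0 →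
      PowerSeries.constantCoeff v = 1 → PowerSeries.derivative ℚ u = v →
      PowerSeries.derivative ℚ v = PowerSeries.C b * u → AdditionLaw ![u, v]) ∧
    -- elliptic functions `w'^2 = 1 + a w^2 + b w^4` and elliptic integrals of the second kind
    (∀ (a b : ℚ) (w Z : PowerSeries ℚ), PowerSeries.constantCoeff w = 0 →
      PowerSeries.constantCoeff (PowerSeries.derivative ℚ w) = 1 →
      PowerSeries.derivative ℚ (PowerSeries.derivative ℚ w) =
        PowerSeries.C a * w + PowerSeries.C (2 * b) * w ^ 3 →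
      PowerSeries.constantCoeff Z = 0 → PowerSeries.derivative ℚ Z = w ^ 2 →
      AdditionLaw ![w, PowerSeries.derivative ℚ w, Z]) := by
  refine ⟨?_, ?_, ?_, ?_, ?_, ?_⟩
  · intro s w hw ρ hρ h0 hne f hf ω h1 h2
    obtain ⟨N, M, hA⟩ := hw.add
    exact Pool.Agent.R340.LL.Q2_of_alg (Run7.h131.AD.fin_alg Run7.h131.AD.a_ZZZ Run7.h131.AD.a_MAIN2
      Run7.h131.AD.a_Z w N M hA ρ hρ h0 hne f hf.mem ⟨ω, h1, h2⟩)
  · intro s w hw f hf
    obtain ⟨N, M, hA⟩ := hw.add
    obtain ⟨N', M', hA'⟩ := Run7.h131.AD.a_Z s w N M hA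
    exact Run7.h131.AD.a_MAIN2 (s + 1) _ N' M' hA' f hf.mem
  · intro s t w v hw hv
    obtain ⟨N, M, h1⟩ := hw.add
    obtain ⟨N', M', h2⟩ := hv.add
    exact AdditionLaw.of (Run7.h131.AD.a_CAT s t w N M v N' M' h1 h2)
  · intro c E h0 h1
    have e : (![E] : Fin 1 → PowerSeries ℚ) = fun _ : Fin 1 => E := by
      funext i
      fin_cases i
      rfl
    rw [e]
    exact AdditionLaw.of (Run7.h131.AD.a_EXS.1 c E h0 h1)
  · intro b u v h0 h1 h2 h3
    exact AdditionLaw.of (Run7.h131.AD.a_EXS.2 b u v h0 h1 h2 h3)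
  · intro a b w Z h0 h1 h2 h3 h4
    exact AdditionLaw.of (Run7.h131.AD.t_ELZ a b w Z h0 h1 h2 h3 h4)

end Pool.Agent.Results.MP_b91de3_nt.AdditionTheorem
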