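import Mathlib
import Pool.Agent.Run7.h131.LL.Imp
import Pool.Agent.R340.LL.Eis
import Pool.Agent.TH252.P2.Glob

/-!
# Omega-integrality of exponentially algebraic power series

Let `f` be a power series over `ℚ` such that `f(z^e)` is exponentially algebraic over `k(z)` for some
field `k` of characteristic zero and some `e ≥ 1`.  If `f` is `ω`-integral for a superlinear `ω`, then
`f` has bounded denominators.  The class contains all elementary functions (iterated exponentials,
logarithms and algebraic functions) and all functions defined implicitly by nondegenerate systems of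
exponential polynomial equations.
-/

set_option autoImplicit false

namespace Pool.Agent.Results.MP_b91de3_nt.ExponentiallyAlgebraic

open Run7.h131.LL

/-- `x` is integral at `p`. -/
def PInt (p : ℕ) (x : ℚ) : Prop := ∃ a b : ℤ, ¬ ((p : ℤ) ∣ b) ∧ x = (a : ℚ) / (b : ℚ)

/-- `f` has bounded denominators: all its coefficients lie in `ℤ[1/N]` for some `N ≥ 1`. -/
def BoundedDenominators (f : PowerSeries ℚ) : Prop :=
  ∃ N : ℕ, 1 ≤ N ∧ ∀ k : ℕ, ∃ (a : ℤ) (m : ℕ), PowerSeries.coeff k f = (a : ℚ) / ((N : ℚ) ^ m)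

/-- `ω` is superlinear: `ω(p)/p → ∞`. -/
def Superlinear (ω : ℕ → ℤ) : Prop :=
  ∀ M : ℝ, ∃ B : ℕ, ∀ p : ℕ, p.Prime → B ≤ p → M ≤ (ω p : ℝ) / (p : ℝ)

/-- `f` is `ω`-integral: `a_0, …, a_{ω(p)}` are integral at `p`, for every prime `p`. -/
def OmegaIntegral (ω : ℕ → ℤ) (f : PowerSeries ℚ) : Prop :=
  ∀ p : ℕ, p.Prime → ∀ k : ℕ, (k : ℤ) ≤ ω p → PInt p (PowerSeries.coeff k f)

section classes

variable {k : Type*} [Field k]

/-- `f` is algebraic over `k(z, S)`. -/
def AlgOver (S : Set (PowerSeries k)) (f : PowerSeries k) : Prop :=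
  IsAlgebraic (Algebra.adjoin k (insert PowerSeries.X S)) f

/-- `b = c · exp a` with a nonzero constant `c`: `b(0) ≠ 0` and `b' = b a'`. -/
def IsExp (a b : PowerSeries k) : Prop :=
  PowerSeries.constantCoeff b ≠ 0 ∧
    PowerSeries.derivative k b = b * PowerSeries.derivative k a

/-- `f` is exponentially algebraic over `k(z)`: it is algebraic over a field `k(z, g_1, …, g_n)` with
`n` generators, over which `n` functions `a_i` and their exponentials `b_i` are algebraic too, the
`a_i` being linearly independent over `ℤ` modulo constants. -/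
def ExpAlg (f : PowerSeries k) : Prop :=
  ∃ (n : ℕ) (a b g : Fin n → PowerSeries k), (∀ i, IsExp (a i) (b i)) ∧
    (∀ m : Fin n → ℤ, ∑ i, (m i : PowerSeries k) * PowerSeries.derivative k (a i) = 0 → m = 0) ∧
    (∀ i, AlgOver (Set.range g) (a i)) ∧ (∀ i, AlgOver (Set.range g) (b i)) ∧
    AlgOver (Set.range g) f

/-- `f` is elementary: it is algebraic over `k(z, θ_1, …, θ_N)`, where every `θ_i` is algebraic over
`K_i = k(z, θ_1, …, θ_{i-1})`, or the exponential of a function algebraic over `K_i`, or the logarithm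
of one (up to constants). -/
def Elementary (f : PowerSeries k) : Prop :=
  ∃ (N : ℕ) (θ : Fin N → PowerSeries k),
    (∀ i, AlgOver (θ '' {j | j < i}) (θ i) ∨
      (∃ u, AlgOver (θ '' {j | j < i}) u ∧ IsExp u (θ i)) ∨
      (∃ u, AlgOver (θ '' {j | j < i}) u ∧ IsExp (θ i) u)) ∧
    AlgOver (Set.range θ) f

/-- The point `(z, y_1, …, y_n, b_1, …, b_n)`. -/
noncomputable def point {n : ℕ} (y b : Fin n → PowerSeries k) (o : Option (Fin n ⊕ Fin n)) :
    PowerSeries k :=
  o.elim PowerSeries.X (Sum.elim y b)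

/-- `f` is defined implicitly: it is algebraic over `k(z, y, b)`, where `b_i = c_i exp y_i`, the point
`(z, y, b)` is a zero of `n` polynomials `P_j` over `k`, and the Jacobian determinant of the functions
`P_j(z, y, c exp y)` with respect to `y` does not vanish identically. -/
def Implicit (f : PowerSeries k) : Prop :=
  ∃ (n : ℕ) (y b : Fin n → PowerSeries k) (P : Fin n → MvPolynomial (Option (Fin n ⊕ Fin n)) k),
    (∀ i, IsExp (y i) (b i)) ∧ (∀ j, MvPolynomial.aeval (point y b) (P j) = 0) ∧
    (Matrix.of fun j i : Fin n =>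
      MvPolynomial.aeval (point y b) (MvPolynomial.pderiv (some (Sum.inl i)) (P j)) +
        b i * MvPolynomial.aeval (point y b) (MvPolynomial.pderiv (some (Sum.inr i)) (P j))).det ≠ 0 ∧
    AlgOver (Set.range y ∪ Set.range b) f

end classes

/-- **Omega-integrality of exponentially algebraic power series.** -/
theorem result :
    -- `ω`-integrality implies bounded denominators if `f(z^e)` is exponentially algebraic over `k(z)`
    (∀ (k : Type) [Field k] [CharZero k] (e : ℕ) (he : e ≠ 0) (f : PowerSeries ℚ),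
      ExpAlg (PowerSeries.expand e he (PowerSeries.map (algebraMap ℚ k) f)) →
      ∀ ω : ℕ → ℤ, Superlinear ω → OmegaIntegral ω f → BoundedDenominators f) ∧
    -- elementary functions are exponentially algebraic
    (∀ (k : Type) [Field k] [CharZero k] (f : PowerSeries k), Elementary f → ExpAlg f) ∧
    -- so are the functions defined by nondegenerate systems of exponential polynomial equations
    (∀ (k : Type) [Field k] [CharZero k] (f : PowerSeries k), Implicit f → ExpAlg f) := by
  refine ⟨?_, ?_, ?_⟩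
  · intro k _ _ e he f hf ω hω1 hω2
    obtain ⟨n, a, b, g, h1, h2, h3, h4, h5⟩ := hf
    have hsys : ESys (PowerSeries.expand e he (PowerSeries.map (algebraMap ℚ k) f)) a b g :=
      ⟨fun i => (h1 i).2, fun i => (h1 i).1, h2, h5, h3, h4⟩
    exact Pool.Agent.R340.LL.Q2_of_alg (alg_final e he hsys ⟨ω, hω1, hω2⟩)
  · rintro k _ _ f ⟨N, θ, hθ, hf⟩
    obtain ⟨n, a, b, g, h1, h2, h3, h4, h5⟩ := tower_rank θ hθ
    refine ⟨n, a, b, g, h1, h2, h3, h4, ?_⟩
    have hf' : AO (Set.range θ) f := hf
    refine hf'.trans ?_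
    rintro _ ⟨i, rfl⟩
    exact h5 i
  · rintro k _ _ f ⟨N, y, b, P, hp, hP, hdet, hf⟩
    obtain ⟨n, a', b', g, h1, h2, h3, h4, h5, h6⟩ := implicit_rank y b P hp hP hdet
    refine ⟨n, a', b', g, h1, h2, h3, h4, ?_⟩
    have hf' : AO (Set.range y ∪ Set.range b) f := hf
    refine hf'.trans ?_
    rintro _ (⟨i, rfl⟩ | ⟨i, rfl⟩)
    · exact h5 i
    · exact h6 i

end Pool.Agent.Results.MP_b91de3_nt.ExponentiallyAlgebraic
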