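import Mathlib
import Pool.Agent.Run7.h131.PP.FinA
import Pool.Agent.Run7.h131.PP.FinB
import Pool.Agent.R340.LL.Eis
import Pool.Agent.TH252.P2.Glob

/-!
# Omega-integrality of iterated integrals

Let `F = f(ρ(x))`, where `f` is a power series over `ℚ` and `ρ` an algebraic power series, `ρ(0) = 0`,
`ρ ≠ 0`.  Suppose that `F` is algebraic over a field `k(x, θ_1, …, θ_n)` of iterated primitives
(`θ_i' ∈ k(x, θ_1, …, θ_{i-1})`), or that `F` is polylogarithmic: there are iterated integrals of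
logarithmic forms `dh / h`, `h` algebraic over the differential field `J` generated by `F`, such that
`F` is algebraic over them, or which satisfy a nontrivial algebraic relation over `J`.  If `f` is
`ω`-integral for a superlinear `ω` then `f` has bounded denominators.
-/

set_option autoImplicit false

namespace Pool.Agent.Results.MP_b91de3_nt.IteratedIntegrals

open Run7.h131

/-- `x` is integral at `p`. -/
def PInt (p : ℕ) (x : ℚ) : Prop := ∃ a b : ℤ, ¬ ((p : ℤ) ∣ b) ∧ x = (a : ℚ) / (b : ℚ)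

/-- `f` has bounded denominators: all its coefficients lie in `ℤ[1/N]` for some `N ≥ 1`. -/
def BoundedDenominators (f : PowerSeries ℚ) : Prop :=
  ∃ N : ℕ, 1 ≤ N ∧ ∀ k : ℕ, ∃ (a : ℤ) (m : ℕ), PowerSeries.coeff k f = (a : ℚ) / ((N : ℚ) ^ m)

/-- `ω` is superlinear: `ω(p)/p → ∞`. -/
def Superlinear (ω : ℕ → ℤ) : Prop :=
  ∀ M : ℝ, ∃ B : ℕ, ∀ p : ℕ, p.Prime → B ≤ p → M ≤ (ω p : ℝ) / (p : ℝ)

/-- `f` is `ω`-integral: `a_0, …, a_{ω(p)}` are integral at `p`, for every prime `p`. -/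
def OmegaIntegral (ω : ℕ → ℤ) (f : PowerSeries ℚ) : Prop :=
  ∀ p : ℕ, p.Prime → ∀ k : ℕ, (k : ℤ) ≤ ω p → PInt p (PowerSeries.coeff k f)

section classes

variable {k : Type} [Field k] {Ω : Type} [Field Ω]

/-- The subfield `k(x, S)` of a field `Ω` which contains `k⟦x⟧`. -/
def Gen (φ : PowerSeries k →+* Ω) (S : Set Ω) : Subfield Ω :=
  Subfield.closure (Set.range (fun c : k => φ (PowerSeries.C c)) ∪ {φ PowerSeries.X} ∪ S)

/-- The derivation `D` of `Ω` extends `d/dx` on `k⟦x⟧`, and its only constants are those of `k`. -/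
def NoNewConstants (D : Derivation ℤ Ω Ω) (φ : PowerSeries k →+* Ω) : Prop :=
  (∀ u, D (φ u) = φ (PowerSeries.derivative k u)) ∧
    ∀ x, D x = 0 → ∃ c : k, x = φ (PowerSeries.C c)

/-- `θ_1, …, θ_n` are iterated primitives: `θ_i' ∈ k(x, θ_1, …, θ_{i-1})`. -/
def PrimitiveTower (D : Derivation ℤ Ω Ω) (φ : PowerSeries k →+* Ω) {n : ℕ} (θ : Fin n → Ω) :
    Prop :=
  ∀ i, D (θ i) ∈ Gen φ (θ '' {j | j < i})

/-- `F` is algebraic over a field `k(x, θ_1, …, θ_n)` of iterated primitives. -/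
def IteratedPrimitive (D : Derivation ℤ Ω Ω) (φ : PowerSeries k →+* Ω) (F : Ω) : Prop :=
  ∃ (n : ℕ) (θ : Fin n → Ω), PrimitiveTower D φ θ ∧ IsAlgebraic (Gen φ (Set.range θ)) F

/-- The nonzero power series which are algebraic over the differential field
`k(x, F, F', F'', …)` generated by `F`. -/
def Arguments (D : Derivation ℤ Ω Ω) (φ : PowerSeries k →+* Ω) (F : Ω) : Set Ω :=
  {h | ∃ u : PowerSeries k, u ≠ 0 ∧ h = φ u ∧
    IsAlgebraic (Gen φ (Set.range fun i : ℕ => D^[i] F)) (φ u)}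

/-- The sums `∑ m_j h_j' / h_j` with `m_j ∈ k[S]` and `h_j ∈ H`. -/
def Forms (D : Derivation ℤ Ω Ω) (φ : PowerSeries k →+* Ω) (S H : Set Ω) : AddSubgroup Ω :=
  AddSubgroup.closure {x |
    ∃ m ∈ Subring.closure (Set.range (fun c : k => φ (PowerSeries.C c)) ∪ S),
    ∃ h ∈ H, x = m * (D h / h)}

/-- `F` is polylogarithmic: there are iterated integrals `θ_1, …, θ_n`, that is
`θ_i' = ∑ m_j h_j' / h_j` with `m_j ∈ k[θ_1, …, θ_{i-1}]` and power series `h_j` algebraic over the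
differential field `J` generated by `F`, such that `F` is algebraic over `k(x, θ_1, …, θ_n)`, or such
that some `θ_i` is algebraic over `J(θ_1, …, θ_{i-1})` but not in `k[θ_1, …, θ_{i-1}]`. -/
def Polylogarithmic (D : Derivation ℤ Ω Ω) (φ : PowerSeries k →+* Ω) (F : Ω) : Prop :=
  ∃ (n : ℕ) (θ : Fin n → Ω),
    (∀ i, D (θ i) ∈ Forms D φ (θ '' {j | j < i}) (Arguments D φ F)) ∧
    (IsAlgebraic (Gen φ (Set.range θ)) F ∨
      ∃ i, IsAlgebraic (Gen φ ((Set.range fun i : ℕ => D^[i] F) ∪ θ '' {j | j < i})) (θ i) ∧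
        θ i ∉ Subring.closure (Set.range (fun c : k => φ (PowerSeries.C c)) ∪ θ '' {j | j < i}))

end classes

/-- **Omega-integrality of iterated integrals.** -/
theorem result (k : Type) [Field k] [CharZero k] (Ω : Type) [Field Ω] (D : Derivation ℤ Ω Ω)
    (φ : PowerSeries k →+* Ω) (hD : NoNewConstants D φ)
    (ρ : PowerSeries k) (hρ : IsAlgebraic (Polynomial k) ρ)
    (hρ₀ : PowerSeries.constantCoeff ρ = 0) (hρ₁ : ρ ≠ 0) (f : PowerSeries ℚ)
    (hf : IteratedPrimitive D φ (φ (PowerSeries.subst ρ (PowerSeries.map (algebraMap ℚ k) f))) ∨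
      Polylogarithmic D φ (φ (PowerSeries.subst ρ (PowerSeries.map (algebraMap ℚ k) f))))
    (ω : ℕ → ℤ) (hω : Superlinear ω) (hi : OmegaIntegral ω f) : BoundedDenominators f := by
  haveI : CharZero Ω := charZero_of_injective_ringHom
    (φ.comp (PowerSeries.C : k →+* PowerSeries k)).injective
  have hE : PP.Emb D φ := ⟨hD.1, hD.2⟩
  have h : LL.P3 f := ⟨ω, hω, hi⟩
  refine Pool.Agent.R340.LL.Q2_of_alg ?_
  rcases hf with ⟨n, θ, hθ, hF⟩ | ⟨n, θ, hθ, hF⟩
  · exact PP.alg_descend' (PP.prim_final hE hρ hρ₀ hρ₁ hθ hF h)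
  · have hH : ∀ x ∈ Arguments D φ (φ (PowerSeries.subst ρ (PowerSeries.map (algebraMap ℚ k) f))),
        ∃ u : PowerSeries k, u ≠ 0 ∧ x = φ u ∧ IsAlgebraic (PP.Gen φ (Set.range fun i : ℕ =>
          D^[i] (φ (PowerSeries.subst ρ (PowerSeries.map (algebraMap ℚ k) f))))) (φ u) :=
      fun x hx => hx.imp fun u hu => ⟨hu.1, hu.2.1, hu.2.2⟩
    rcases hF with hF | ⟨i, hi, hni⟩
    · exact PP.alg_descend' (PP.log_final hE hρ hρ₀ hρ₁ h _ hH hθ hF)
    · exact absurd (PP.log_indep hE ((PP.SO_subst h (PP.SO_of_alg hρ) hρ₀).mem hE) _ hH hθ i hi) hni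

end Pool.Agent.Results.MP_b91de3_nt.IteratedIntegrals
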